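import Pool.Agent.W792.WA.Stm5
import Pool.Agent.W999.WA.Vr

/-!
Project WA, part WA-VRS: scaling of the variance of the Cayley transform.
-/

set_option autoImplicit false

namespace Pool.Agent.W436.WA.Vrs

open MeasureTheory Pool.Agent.W792.LL Pool.Agent.W792.WA
open Pool.Agent.W335.LLCay (sub_ne norm_sub norm_cay cont_cay)
open Pool.Agent.W999.WA.Vr (norm_cay_sub norm_sub_sq)

/-- the integral of the squared distance to one point -/
lemma inner (ν : Measure ℝ) [IsProbabilityMeasure ν] (F : ℝ → ℂ) (hc : Continuous F)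
    (h1 : ∀ x, ‖F x‖ = 1) (y : ℝ) : ∫ x, ‖F x - F y‖ ^ 2 ∂ν =
      2 - 2 * ((∫ x, F x ∂ν) * (starRingEnd ℂ) (F y)).re := by
  have hZi : Integrable F ν :=
    Integrable.of_bound hc.aestronglyMeasurable 1 (Filter.Eventually.of_forall fun x => (h1 x).le)
  have h2 : ∀ x : ℝ, ‖F x - F y‖ ^ 2 = 2 - 2 * (F x * (starRingEnd ℂ) (F y)).re := fun x =>
    norm_sub_sq (h1 x) (h1 y)
  have h3 : Integrable (fun x : ℝ => F x * (starRingEnd ℂ) (F y)) ν := hZi.mul_const _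
  have h4 : Integrable (fun x : ℝ => (F x * (starRingEnd ℂ) (F y)).re) ν := h3.re
  have h5 : ∫ x, (F x * (starRingEnd ℂ) (F y)).re ∂ν =
      ((∫ x, F x ∂ν) * (starRingEnd ℂ) (F y)).re := by
    have h6 := integral_re h3
    have h7 : ∫ x, F x * (starRingEnd ℂ) (F y) ∂ν =
        (∫ x, F x ∂ν) * (starRingEnd ℂ) (F y) := integral_mul_const _ _
    rw [h7] at h6
    exact h6
  simp only [h2]
  rw [integral_sub (integrable_const _) (h4.const_mul 2), integral_const_mul, h5]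
  simp

/-- the double integral -/
lemma outer (ν : Measure ℝ) [IsProbabilityMeasure ν] (F : ℝ → ℂ) (hc : Continuous F)
    (h1 : ∀ x, ‖F x‖ = 1) :
    Integrable (fun y : ℝ => 2 - 2 * ((∫ x, F x ∂ν) * (starRingEnd ℂ) (F y)).re) ν ∧
    ∫ y, (2 - 2 * ((∫ x, F x ∂ν) * (starRingEnd ℂ) (F y)).re) ∂ν =
      2 * (1 - ‖∫ x, F x ∂ν‖ ^ 2) := by
  obtain ⟨e, he⟩ : ∃ e : ℂ, e = ∫ x, F x ∂ν := ⟨_, rfl⟩
  rw [← he]
  have h2 : Integrable (fun y : ℝ => e * (starRingEnd ℂ) (F y)) ν := by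
    refine Integrable.const_mul ?_ e
    exact Integrable.of_bound (Complex.continuous_conj.comp hc).aestronglyMeasurable 1
      (Filter.Eventually.of_forall fun x => by rw [RCLike.norm_conj]; exact (h1 x).le)
  have h3 : ∫ y, (e * (starRingEnd ℂ) (F y)).re ∂ν = ‖e‖ ^ 2 := by
    have h6 := integral_re h2
    have h7 : ∫ y, e * (starRingEnd ℂ) (F y) ∂ν = e * (starRingEnd ℂ) e := by
      rw [integral_const_mul, integral_conj, he]
    rw [h7, RCLike.mul_conj] at h6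
    have h8 : ∫ y, (e * (starRingEnd ℂ) (F y)).re ∂ν = ((‖e‖ : ℂ) ^ 2).re := h6
    rw [h8, ← Complex.ofReal_pow, Complex.ofReal_re]
  have h4 : Integrable (fun y : ℝ => (e * (starRingEnd ℂ) (F y)).re) ν := h2.re
  refine ⟨(integrable_const _).sub (h4.const_mul 2), ?_⟩
  rw [integral_sub (integrable_const _) (h4.const_mul 2),
    integral_const_mul (2 : ℝ) (fun a : ℝ => (e * (starRingEnd ℂ) (F a)).re), h3]
  simp only [integral_const, probReal_univ, smul_eq_mul, one_mul]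
  ring

lemma pointwise (α : ℝ) (hα : 0 < α) (x y : ℝ) :
    min (α ^ 2) (1 / α ^ 2) * ‖cay x - cay y‖ ^ 2 ≤
      ‖cay ((α * x : ℝ)) - cay ((α * y : ℝ))‖ ^ 2 := by
  rw [norm_cay_sub, norm_cay_sub]
  obtain ⟨k, hk⟩ : ∃ k : ℝ, k = min (α ^ 2) (1 / α ^ 2) := ⟨_, rfl⟩
  rw [← hk]
  have hα2 : 0 < α ^ 2 := by positivity
  have hk0 : 0 ≤ k := by
    rw [hk]
    exact le_min hα2.le (by positivity)
  have hk1 : k ≤ α ^ 2 := by rw [hk]; exact min_le_left _ _
  have hk2 : k * α ^ 2 ≤ 1 := by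
    have : k ≤ 1 / α ^ 2 := by rw [hk]; exact min_le_right _ _
    rwa [le_div_iff₀ hα2] at this
  obtain ⟨A, hA⟩ : ∃ A : ℝ, A = (1 + (α * x) ^ 2) * (1 + (α * y) ^ 2) := ⟨_, rfl⟩
  obtain ⟨Bb, hB⟩ : ∃ Bb : ℝ, Bb = (1 + x ^ 2) * (1 + y ^ 2) := ⟨_, rfl⟩
  have hA0 : 0 < A := by rw [hA]; positivity
  have hB0 : 0 < Bb := by rw [hB]; positivity
  rw [← hA, ← hB]
  have key : k * A ≤ α ^ 2 * Bb := by
    rcases le_total (α ^ 2) 1 with h | h
    · have h1 : A ≤ Bb := by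
        rw [hA, hB]
        apply mul_le_mul _ _ (by positivity) (by positivity)
        · nlinarith [sq_nonneg x]
        · nlinarith [sq_nonneg y]
      exact mul_le_mul hk1 h1 hA0.le hα2.le
    · have h1 : A ≤ α ^ 2 * α ^ 2 * Bb := by
        rw [hA, hB]
        have e : α ^ 2 * α ^ 2 * ((1 + x ^ 2) * (1 + y ^ 2)) =
            (α ^ 2 * (1 + x ^ 2)) * (α ^ 2 * (1 + y ^ 2)) := by ring
        rw [e]
        apply mul_le_mul _ _ (by positivity) (by positivity)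
        · nlinarith [sq_nonneg x]
        · nlinarith [sq_nonneg y]
      calc k * A ≤ k * (α ^ 2 * α ^ 2 * Bb) := mul_le_mul_of_nonneg_left h1 hk0
        _ = (k * α ^ 2) * (α ^ 2 * Bb) := by ring
        _ ≤ 1 * (α ^ 2 * Bb) := mul_le_mul_of_nonneg_right hk2 (by positivity)
        _ = α ^ 2 * Bb := one_mul _
  rw [mul_div_assoc', div_le_div_iff₀ hB0 hA0]
  calc k * (4 * (x - y) ^ 2) * A = 4 * (x - y) ^ 2 * (k * A) := by ring
    _ ≤ 4 * (x - y) ^ 2 * (α ^ 2 * Bb) := mul_le_mul_of_nonneg_left key (by positivity)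
    _ = 4 * (α * x - α * y) ^ 2 * Bb := by ring

theorem main : S_VRS := by
  intro ν _ α hα
  have hcc : Continuous fun x : ℝ => cay (α * x) := cont_cay.comp (by fun_prop)
  have hZ1 : ∀ x : ℝ, ‖cay (α * x)‖ = 1 := fun x => norm_cay _
  have hc1 : ∀ x : ℝ, ‖cay x‖ = 1 := fun x => norm_cay _
  have hvr : vr (ν.map fun x => α * x) = 1 - ‖∫ x, cay (α * x) ∂ν‖ ^ 2 := by
    unfold vr
    rw [integral_map (by fun_prop) cont_cay.aestronglyMeasurable]
  have hvr0 : vr ν = 1 - ‖∫ x, cay x ∂ν‖ ^ 2 := rfl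
  obtain ⟨i1, o1⟩ := outer ν cay cont_cay hc1
  obtain ⟨i2, o2⟩ := outer ν (fun x => cay (α * x)) hcc hZ1
  have hsqi : ∀ (F : ℝ → ℂ), Continuous F → (∀ x, ‖F x‖ = 1) → ∀ y : ℝ,
      Integrable (fun x => ‖F x - F y‖ ^ 2) ν := by
    intro F hF h1 y
    refine Integrable.of_bound (by
      have : Continuous fun x => ‖F x - F y‖ ^ 2 := by fun_prop
      exact this.aestronglyMeasurable) 4 (Filter.Eventually.of_forall fun x => ?_)
    rw [Real.norm_eq_abs, abs_of_nonneg (by positivity)]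
    have h2 : ‖F x - F y‖ ≤ 2 := by
      refine (norm_sub_le _ _).trans ?_
      rw [h1, h1]; norm_num
    nlinarith [norm_nonneg (F x - F y)]
  have hmono : ∫ y, min (α ^ 2) (1 / α ^ 2) *
      (2 - 2 * ((∫ x, cay x ∂ν) * (starRingEnd ℂ) (cay y)).re) ∂ν ≤
      ∫ y, (2 - 2 * ((∫ x, cay (α * x) ∂ν) * (starRingEnd ℂ) (cay (α * y))).re) ∂ν := by
    refine integral_mono (i1.const_mul _) i2 (fun y => ?_)
    show min (α ^ 2) (1 / α ^ 2) *
      (2 - 2 * ((∫ x, cay x ∂ν) * (starRingEnd ℂ) (cay y)).re) ≤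
      2 - 2 * ((∫ x, cay (α * x) ∂ν) * (starRingEnd ℂ) (cay (α * y))).re
    rw [← inner ν cay cont_cay hc1 y]
    have h2 := inner ν (fun x => cay (α * x)) hcc hZ1 y
    rw [← h2, ← integral_const_mul]
    refine integral_mono ((hsqi cay cont_cay hc1 y).const_mul _)
      (hsqi (fun x => cay (α * x)) hcc hZ1 y) (fun x => ?_)
    exact pointwise α hα x y
  rw [integral_const_mul, o1, o2] at hmono
  rw [hvr, hvr0]
  have e : min (α ^ 2) (1 / α ^ 2) * (2 * (1 - ‖∫ x, cay x ∂ν‖ ^ 2)) =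
      2 * (min (α ^ 2) (1 / α ^ 2) * (1 - ‖∫ x, cay x ∂ν‖ ^ 2)) := by ring
  rw [e] at hmono
  linarith

end Pool.Agent.W436.WA.Vrs
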